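import Pool.Agent.N209.MT.Gen

/-!
# Existence of a motivic t-structure: criteria on objects in degree zero and on generators

Let `C` be the category of constructible motives over a field with rational coefficients, with its
realisations `R l`, embedded as a category of compact objects in the category `T` of all motives.
Say that a t-structure is motivic if it is non-degenerate and compatible with the tensor product
and all `R l` are t-exact. It is shown that a motivic t-structure exists if and only if

* the objects `M` such that all realisations of `M` are concentrated in degree zero generate `C`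
  (for motives this is the subject of the Basic Lemma of Nori and Beilinson), and
* for one (equivalently: for every) `l`, for each object `M` such that `R l` of `M` is concentrated
  in degree zero, `Hom(𝟙, M⟦n⟧) = 0` for `n < 0` and `Hom(𝟙, M) → H^0(R l M)` is injective.

Moreover, let `G` be any class of objects in degree zero which contains `𝟙`, is closed under the
tensor product and generates `C` (for motives: the motives, in the appropriate degree and with
Tate twists, of the good pairs of Nori). Then a motivic t-structure exists if and only if for one
(equivalently: for every) `l`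

* the realisation `R l` is conservative, and
* for `M`, `N` in `G` one has `Hom(M, N⟦n⟧) = 0` for `n < 0`, and `R l` is injective on
  `Hom(M, N)`.

So the conditions are only on the given generators; no statement on the existence of kernels or on
Künneth components, and nothing on positive extensions, is needed. The theorem is stated for any
idempotent complete rigid `ℚ`-linear tensor triangulated category with a family of realisations
and an indecomposable unit, which has a full embedding by compact objects in a tensor
triangulated category with coproducts.
-/

set_option autoImplicit false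

open CategoryTheory Limits MonoidalCategory Pretriangulated Triangulated

universe w v u v' u'

namespace Pool.Agent.Results.MP_6d0ce9_ag.CriterionOnGenerators

open Pool.Agent.Y116.MT Pool.Agent.V1178.MT Pool.Agent.N209.MT

/-- There is a motivic t-structure if and only if the objects whose realisations are all in degree
zero generate the category, and one (or every) realisation `R l` is faithful on the morphisms
`𝟙 ⟶ M⟦n⟧` with `n ≤ 0` and `R l` of `M` in degree zero. If a generating tensor class `G` of
objects in degree zero is given, then there is a motivic t-structure if and only if one (or every)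
realisation is conservative and faithful on the morphisms `M ⟶ N⟦n⟧` with `n ≤ 0` and `M`, `N`
in `G`. -/
theorem result {C : Type u} [Category.{v} C] [Preadditive C] [HasZeroObject C] [HasShift C ℤ]
    [∀ n : ℤ, (shiftFunctor C n).Additive] [Pretriangulated C] [IsTriangulated C]
    [MonoidalCategory C] [SymmetricCategory C] [TensorTriangulated C] [MonoidalPreadditive C]
    [RightRigidCategory C] [Linear ℚ C] [IsIdempotentComplete C]
    (hid : ∀ e : 𝟙_ C ⟶ 𝟙_ C, e ≫ e = e → e = 0 ∨ e = 𝟙 _)
    -- the ambient category
    {T : Type u'} [Category.{v'} T] [Preadditive T] [HasZeroObject T] [HasShift T ℤ]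
    [∀ n : ℤ, (shiftFunctor T n).Additive] [Pretriangulated T] [IsTriangulated T]
    [MonoidalCategory T] [SymmetricCategory T] [TensorTriangulated T] [MonoidalPreadditive T]
    [HasCoproducts.{max u v'} T]
    -- the embedding
    (ι : C ⥤ T) [ι.Full] [ι.Faithful] [ι.Braided] [ι.CommShift ℤ] [ι.IsTriangulated]
    (hc : ∀ X : C, IsCompactObj.{max u v'} (ι.obj X))
    -- the realisations
    {Λ : Type*} [Nonempty Λ] {E : Λ → Type w} [∀ l, Field (E l)]
    (R : ∀ l, Realisation C (E l)) :
    List.TFAE [
      ∃ t : TStructure C, IsMotivic t R,
      (DegreeZero R).IsClassicalTriangulatedGenerator ∧ ∃ l, FaithfulNonpos (R l),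
      (DegreeZero R).IsClassicalTriangulatedGenerator ∧ ∀ l, FaithfulNonpos (R l)] ∧
    ∀ G : ObjectProperty C, IsGeneratingClass R G → List.TFAE [
      ∃ t : TStructure C, IsMotivic t R,
      ∃ l, Conservative (R l) ∧ FaithfulOn (R l) G,
      ∀ l, Conservative (R l) ∧ FaithfulOn (R l) G] := by
  obtain ⟨l₀⟩ := ‹Nonempty Λ›
  have : Nonempty Λ := ⟨l₀⟩
  constructor
  · tfae_have 1 → 3 := fun ⟨t, h⟩ => ⟨generates_of_motivic hid h, faithful_of_motivic hid h⟩
    tfae_have 3 → 2 := fun ⟨h1, h2⟩ => ⟨h1, l₀, h2 l₀⟩
    tfae_have 2 → 1 := fun ⟨h1, _, h2⟩ => exists_motivic'' ι hc hid h1 h2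
    tfae_finish
  · intro G hG
    tfae_have 1 → 3 := fun ⟨t, h⟩ l => ⟨conservative_of_motivic hid h l,
      faithfulOn_of_motivic hid h l fun X hX => hG.degree X hX l⟩
    tfae_have 3 → 2 := fun h => ⟨l₀, h l₀⟩
    tfae_have 2 → 1 := fun ⟨_, h1, h2⟩ => exists_motivic' ι hc hid hG h1 h2
    tfae_finish

end Pool.Agent.Results.MP_6d0ce9_ag.CriterionOnGenerators
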