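import Pool.Agent.N209.FF.Mot

/-!
# Motivic t-structures over finite fields

Let `C` be the category of constructible Voevodsky motives over a finite field with rational
coefficients, `W` the class of Chow motives in `C`, and `R l` the `ℓ`-adic realisations. It is shown
that the following are equivalent:

* there is a motivic t-structure on `C`: non-degenerate, compatible with the tensor product, and
  such that all realisations are t-exact;
* rational and numerical equivalence coincide, and Parshin's conjecture holds: for smooth projective
  varieties the rational higher Chow groups vanish;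
* `C` is semisimple: for each morphism `f : X ⟶ Y` of `C` there is `g` with `f ≫ g ≫ f = f`;
* one realisation `R l` is faithful; all realisations `R l` are faithful;
* for one `l`, or for all `l`, the maps `Hom(𝟙, X) ⊗ E l → H_l(X)` are injective for all `X` in `C`.

The Tate conjecture is not assumed. The properties of finite fields which are used are that the
Frobenius is an endomorphism of the identity functor of `C`, and the Riemann hypothesis.

In the proof that a motivic t-structure implies that rational and numerical equivalence coincide,
a motivic t-structure makes the realisations conservative, and conservativity implies that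
homological and numerical equivalence coincide: this is the theorem of `Pool/Agent/N209/CD`. For the
comparison of rational and homological equivalence one uses that an endomorphism with trivial
realisation is nilpotent if there is a motivic t-structure, and applies this to a polynomial in the
Frobenius. The other direction is a dévissage for the pairing of `Hom(𝟙, X)` and `Hom(X, 𝟙)`; it
shows that all morphisms of `C` are regular, and the t-structure is constructed from this.
-/

set_option autoImplicit false

open CategoryTheory Limits MonoidalCategory Pretriangulated Triangulated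

universe v u w

namespace Pool.Agent.Results.MP_6d0ce9_ag.FiniteFields

open Pool.Agent.Y116.MT Pool.Agent.N209.CD Pool.Agent.N209.FF

/-- Let `C` be a category of motives over a finite field, with the class `W` of Chow motives. There
is a motivic t-structure on `C` if and only if rational and numerical equivalence coincide and
Parshin's conjecture holds, if and only if all morphisms of `C` are regular, if and only if one (or
each) realisation is faithful, if and only if, for one (or each) `l`, linearly independent elements
of `Hom(𝟙, X)` have linearly independent cohomology classes, for all `X`. -/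
theorem result {C : Type u} [Category.{v} C] [Preadditive C] [HasZeroObject C] [HasShift C ℤ]
    [∀ n : ℤ, (shiftFunctor C n).Additive] [Pretriangulated C] [IsTriangulated C]
    [MonoidalCategory C] [SymmetricCategory C] [TensorTriangulated C] [MonoidalPreadditive C]
    [RightRigidCategory C] [Linear ℚ C] [IsIdempotentComplete C]
    (hQ : ∀ e : 𝟙_ C ⟶ 𝟙_ C, ∃ a : ℚ, e = a • 𝟙 _)
    {Λ : Type*} [Nonempty Λ] {E : Λ → Type w} [∀ l, Field (E l)]
    (R : ∀ l, Realisation C (E l))
    -- the class of Chow motives
    {W : ObjectProperty C} (hW : IsChowClass W)
    -- the Frobenius and the Riemann hypothesis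
    {q : ℝ} (F : ∀ l, Frobenius (R l) W q) (hF : ∀ l l', (F l).Φ = (F l').Φ) :
    List.TFAE [
      ∃ t : TStructure C, IsMotivic t R,
      RatNum W ∧ Parshin W,
      ∀ (X Y : C) (f : X ⟶ Y), ∃ g : Y ⟶ X, f ≫ g ≫ f = f,
      ∃ l, IsFaithful (R l),
      ∀ l, IsFaithful (R l),
      ∃ l, ClassInjective (R l),
      ∀ l, ClassInjective (R l)] := by
  obtain ⟨l₀⟩ := ‹Nonempty Λ›
  have hid : ∀ e : 𝟙_ C ⟶ 𝟙_ C, e ≫ e = e → e = 0 ∨ e = 𝟙 _ := by
    intro e he
    obtain ⟨a, rfl⟩ := hQ e
    rw [Linear.smul_comp, Category.id_comp, smul_smul, ← sub_eq_zero, ← sub_smul,
      smul_eq_zero] at he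
    rcases he with h | h
    · have h1 : a * (a - 1) = 0 := by rw [mul_sub, mul_one, h]
      rcases mul_eq_zero.1 h1 with h2 | h2
      · exact Or.inl (by rw [h2, zero_smul])
      · exact Or.inr (by rw [sub_eq_zero.1 h2, one_smul])
    · exact Or.inl (by rw [h, smul_zero])
  tfae_have 1 → 2 := fun ⟨t, h⟩ => ratNum_parshin_of_motivic hW l₀ (F l₀) hid h
  tfae_have 2 → 3 := fun ⟨h1, h2⟩ X Y f =>
    regular_of_ratNum (R := R l₀) hQ (ratNum_all (R := R l₀) hQ hW h1 h2) f
  tfae_have 3 → 7 := fun h l => classInjective_of_ratNum hQ (ratNum_of_regular h)
  tfae_have 7 → 6 := fun h => ⟨l₀, h l₀⟩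
  tfae_have 7 → 5 := fun h l => faithful_of_classInjective (h l)
  tfae_have 6 → 4 := fun ⟨l, h⟩ => ⟨l, faithful_of_classInjective h⟩
  tfae_have 5 → 4 := fun h => ⟨l₀, h l₀⟩
  tfae_have 4 → 2 := fun ⟨l, h⟩ => ratNum_parshin_of_faithful hW (F l) h
  tfae_have 3 → 1 := fun h => motivic_of_regular hW F hF hid (l₀ := l₀)
    (faithful_of_ratNum hQ (ratNum_of_regular h)) h
  tfae_finish

end Pool.Agent.Results.MP_6d0ce9_ag.FiniteFields
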