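import Pool.Agent.N209.PF.Main

/-!
# The existence of a motivic t-structure depends only on the characteristic of the field

Let `K / k` be an extension of fields. It is shown that the category of constructible motives over
`k` has a motivic t-structure (non-degenerate, compatible with the tensor product, all realisations
t-exact) if and only if the category of constructible motives over `K` has one. Hence Q1 for one
field, for instance for `ℚ`, or for the field with `p` elements, implies Q1 for all fields of the
same characteristic. With the theorem `FiniteFields` of this folder it follows that in positive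
characteristic Q1 holds for all fields if and only if rational and numerical equivalence coincide
and Parshin's conjecture holds for smooth projective varieties over the prime fields.

The theorem is stated for abstract tensor triangulated categories `C` (motives over `k`) and `C'`
(motives over `K`). The two directions use the following data.

* From `K` to `k`: the base change functor `b : C ⥤ C'`, which is faithful and compatible with the
  realisations.
* From `k` to `K`: for each smooth `k`-variety `U i` with a morphism from `Spec K` onto its generic
  point, the category `D i` of lisse (dualizable) motives over `U i`, with the restriction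
  `ρ i : D i ⥤ C'` to `Spec K`, the inverse image `φ i : C ⥤ D i` and its right adjoint, the direct
  image `π i : D i ⥤ C`. Each morphism `𝟙 ⟶ G` of `C'` comes from some `D i` (continuity), and the
  realisations are compatible with these functors: the realisation of `π i P` is the cohomology of
  `U i` with values in a lisse complex whose stalk is the realisation of `ρ i P` (`LisseCompat`).

The idea of the proof of the second direction: by the criterion of this library, a motivic
t-structure exists for `C'` as soon as the realisation is injective on the morphisms `𝟙 ⟶ G⟦n⟧` for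
`n ≤ 0` and `G` in degree zero. Such a morphism comes from a lisse motive `P` over some `U`, hence
from a morphism `𝟙 ⟶ π P` of motives over `k`, and the direct image `π` is left t-exact.

The faithfulness of `b` can be seen by specialisation to a closed point and transfers. The
generation of `C` and `C'` by objects in degree zero is the Basic Lemma of Nori and Beilinson.
-/

set_option autoImplicit false

open CategoryTheory Limits MonoidalCategory Pretriangulated Triangulated

universe w v u v' u'

namespace Pool.Agent.Results.MP_6d0ce9_ag.IndependenceOfBaseField

open Pool.Agent.Y116.MT Pool.Agent.N209.MT Pool.Agent.N209.PF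

/-- Let `C` and `C'` be the categories of motives over a field `k` and over an extension field
`K` of `k`. Then `C` has a motivic t-structure if and only if `C'` has a motivic t-structure. -/
theorem result
    -- the category of motives over `k`
    {C : Type u} [Category.{v} C] [Preadditive C] [HasZeroObject C] [HasShift C ℤ]
    [∀ n : ℤ, (shiftFunctor C n).Additive] [Pretriangulated C] [IsTriangulated C]
    [MonoidalCategory C] [SymmetricCategory C] [TensorTriangulated C] [MonoidalPreadditive C]
    [RightRigidCategory C] [Linear ℚ C] [IsIdempotentComplete C]
    (hid : ∀ e : 𝟙_ C ⟶ 𝟙_ C, e ≫ e = e → e = 0 ∨ e = 𝟙 _)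
    -- the category of motives over `K`
    {C' : Type u} [Category.{v} C'] [Preadditive C'] [HasZeroObject C'] [HasShift C' ℤ]
    [∀ n : ℤ, (shiftFunctor C' n).Additive] [Pretriangulated C'] [IsTriangulated C']
    [MonoidalCategory C'] [SymmetricCategory C'] [TensorTriangulated C'] [MonoidalPreadditive C']
    [RightRigidCategory C'] [Linear ℚ C'] [IsIdempotentComplete C']
    (hid' : ∀ e : 𝟙_ C' ⟶ 𝟙_ C', e ≫ e = e → e = 0 ∨ e = 𝟙 _)
    -- the ambient categories of all motives, with coproducts, in which `C` and `C'` consist of
    -- compact objects
    {T : Type u'} [Category.{v'} T] [Preadditive T] [HasZeroObject T] [HasShift T ℤ]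
    [∀ n : ℤ, (shiftFunctor T n).Additive] [Pretriangulated T] [IsTriangulated T]
    [MonoidalCategory T] [SymmetricCategory T] [TensorTriangulated T] [MonoidalPreadditive T]
    [HasCoproducts.{max u v'} T]
    (ι : C ⥤ T) [ι.Full] [ι.Faithful] [ι.Braided] [ι.CommShift ℤ] [ι.IsTriangulated]
    (hc : ∀ X : C, IsCompactObj.{max u v'} (ι.obj X))
    {T' : Type u'} [Category.{v'} T'] [Preadditive T'] [HasZeroObject T'] [HasShift T' ℤ]
    [∀ n : ℤ, (shiftFunctor T' n).Additive] [Pretriangulated T'] [IsTriangulated T']
    [MonoidalCategory T'] [SymmetricCategory T'] [TensorTriangulated T'] [MonoidalPreadditive T']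
    [HasCoproducts.{max u v'} T']
    (ι' : C' ⥤ T') [ι'.Full] [ι'.Faithful] [ι'.Braided] [ι'.CommShift ℤ] [ι'.IsTriangulated]
    (hc' : ∀ X : C', IsCompactObj.{max u v'} (ι'.obj X))
    -- the realisations
    {Λ : Type} [Nonempty Λ] {E : Λ → Type w} [∀ l, Field (E l)]
    (R : ∀ l, Realisation C (E l)) (R' : ∀ l, Realisation C' (E l))
    -- the base change functor
    (b : C ⥤ C') [b.Additive] [b.Monoidal] [b.CommShift ℤ] [b.Faithful]
    (hb : ∀ l, Nonempty ((R l).H ≅ b ⋙ (R' l).H))
    -- the categories of lisse motives over the varieties `U i`
    {I : Type u} (D : I → Type u) [∀ i, Category.{v} (D i)] [∀ i, Preadditive (D i)]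
    [∀ i, MonoidalCategory (D i)]
    (ρ : ∀ i, D i ⥤ C') [∀ i, (ρ i).Additive] [∀ i, (ρ i).Monoidal]
    (φ : ∀ i, C ⥤ D i) [∀ i, (φ i).Monoidal]
    (π : ∀ i, D i ⥤ C) [∀ i, (π i).Additive] (adj : ∀ i, φ i ⊣ π i)
    (hL : ∀ i l, LisseCompat (R l) (R' l) (ρ i) (φ i) (π i) (adj i))
    -- each morphism `𝟙 ⟶ G` of `C'` comes from some `D i`
    (hcov : ∀ (G : C') (s : 𝟙_ C' ⟶ G), ∃ (i : I) (P : D i) (s₀ : 𝟙_ (D i) ⟶ P)
      (j : (ρ i).obj P ≅ G), s = Functor.LaxMonoidal.ε (ρ i) ≫ (ρ i).map s₀ ≫ j.hom)
    -- generation by objects in degree zero
    (hg : (DegreeZero R).IsClassicalTriangulatedGenerator)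
    (hg' : (DegreeZero R').IsClassicalTriangulatedGenerator) :
    (∃ t : TStructure C, IsMotivic t R) ↔ ∃ t' : TStructure C', IsMotivic t' R' := by
  constructor
  · exact exists_of_models hid hid' ι' hc' D ρ φ π adj hL hcov hg'
  · intro ht'
    refine exists_of_spans hid ι hc (I := Unit) (fun _ => C') (fun _ => hid') (R' := fun _ => R')
      (fun _ => C) (fun _ => 𝟭 C) (fun _ => b) (fun _ l => ?_) (fun G n s => ?_) hg (fun _ => ht')
    · exact ⟨(R l).H.leftUnitor ≪≫ (hb l).some⟩
    · refine ⟨(), G, s, Iso.refl _, ?_⟩
      simp [spanMor, Functor.commShiftIso_id_hom_app]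

end Pool.Agent.Results.MP_6d0ce9_ag.IndependenceOfBaseField
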