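import Pool.Agent.N209.MT.Indep

/-!
# Motivic t-structures: it is enough that one realisation is t-exact

Let `C` be the category of constructible motives over a field with rational coefficients, or any
rigid `ℚ`-linear tensor triangulated category with a family of realisations `R l` and an
indecomposable unit. A t-structure on `C` is motivic for all `R l` if and only if

* it is motivic for one of them, and
* the objects `X` such that all realisations of `X` are concentrated in degree zero generate `C` as
  a triangulated category (with shifts, cones and direct summands).

In the case of motives the generation by such objects is the subject of the Basic Lemma of Nori and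
Beilinson. The second condition cannot be omitted in general: on the bounded derived category
of graded vector spaces the realisation that shifts the part of weight `n` by `2n` is a
second realisation, for which the standard t-structure is not motivic.
-/

set_option autoImplicit false

open CategoryTheory Limits MonoidalCategory Pretriangulated Triangulated

universe v u w

namespace Pool.Agent.Results.MP_6d0ce9_ag.IndependenceOfRealisation

open Pool.Agent.Y116.MT Pool.Agent.N209.MT

/-- A t-structure is motivic for all realisations `R l` if and only if it is motivic for one of
them and the objects whose realisations are all in degree zero generate the category. -/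
theorem result {C : Type u} [Category.{v} C] [Preadditive C] [HasZeroObject C] [HasShift C ℤ]
    [∀ n : ℤ, (shiftFunctor C n).Additive] [Pretriangulated C] [IsTriangulated C]
    [MonoidalCategory C] [SymmetricCategory C] [TensorTriangulated C] [MonoidalPreadditive C]
    [RightRigidCategory C] [Linear ℚ C]
    (hid : ∀ e : 𝟙_ C ⟶ 𝟙_ C, e ≫ e = e → e = 0 ∨ e = 𝟙 _)
    {Λ : Type*} [Nonempty Λ] {E : Λ → Type w} [∀ l, Field (E l)]
    (R : ∀ l, Realisation C (E l)) (t : TStructure C) :
    IsMotivic t R ↔
      (∃ l, IsMotivic t (fun _ : Unit => R l)) ∧
        (DegreeZero R).IsClassicalTriangulatedGenerator := by
  constructor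
  · intro h
    obtain ⟨l⟩ := ‹Nonempty Λ›
    have : Nonempty Λ := ⟨l⟩
    exact ⟨⟨l, h.nondeg_le, h.nondeg_ge, h.tensor_le, h.tensor_ge, fun _ => h.exact_le l,
      fun _ => h.exact_ge l⟩, generates_of_motivic hid h⟩
  · rintro ⟨⟨l, h⟩, hg⟩
    exact motivic_all hid h hg

end Pool.Agent.Results.MP_6d0ce9_ag.IndependenceOfRealisation
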